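import Pool.Agent.helper34.Cay.Main
import Pool.Agent.helper34.Cay.Exist

/-!
# The Cayley degree of `SL₂₇` is greater than two
-/

universe u v

/-- Over every algebraically closed field of characteristic zero the function field of `SL₂₇`
exists, and the Cayley degree of `SL₂₇` is greater than two. -/
theorem Pool.Agent.Results.MP_88d955_ag.CayleyDegreeSL27.result
    (k : Type u) [Field k] [IsAlgClosed k] [CharZero k] :
    (∃ (K : Type u) (_ : Field K) (_ : Algebra k K) (X : Matrix (Fin 27) (Fin 27) K),
      Pool.Agent.helper34.Cay.IsFunctionFieldSL k X) ∧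
    ∀ (K : Type v) [Field K] [Algebra k K] (X : Matrix (Fin 27) (Fin 27) K),
      Pool.Agent.helper34.Cay.IsFunctionFieldSL k X →
        (∃ F : Matrix (Fin 27) (Fin 27) K,
          Pool.Agent.helper34.Cay.IsDominantEquivariant k X F) ∧
        2 < Pool.Agent.helper34.Cay.cayleyDegree k X := by
  refine ⟨Pool.Agent.helper34.Cay.exists_functionField k (Fin 27), ?_⟩
  intro K _ _ X hX
  have hex := Pool.Agent.helper34.Cay.exists_dominant hX
  refine ⟨hex, ?_⟩
  have hne : {c | ∃ F : Matrix (Fin 27) (Fin 27) K,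
      Pool.Agent.helper34.Cay.IsDominantEquivariant k X F ∧
      Module.rank (IntermediateField.adjoin k
        (Set.range fun ij : Fin 27 × Fin 27 => F ij.1 ij.2)) K = c}.Nonempty := by
    obtain ⟨F, hF⟩ := hex
    exact ⟨_, F, hF, rfl⟩
  obtain ⟨F, hF, hrank⟩ := csInf_mem hne
  have e : Fin 27 ≃ Pool.Agent.helper34.Cay.H :=
    Fintype.equivOfCardEq (by
      rw [Fintype.card_fin, Pool.Agent.helper34.Cay.card_H])
  have h1 := Pool.Agent.helper34.Cay.main e hX hF
  unfold Pool.Agent.helper34.Cay.cayleyDegree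
  rw [← hrank]
  exact h1
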